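import Pool.Agent.Lib.BorsukUlam.Spec

/-!
# The Borsuk-Ulam theorem: the algebra of chains
-/

set_option autoImplicit false

open scoped Classical

namespace Pool.Agent.BU

private theorem Alg_bdbd (X : Type) (c : Ch X) : bd (bd c) = 0 := by
  have h := eq_of_basis (P := fun _ : Finset X => True) (bd ∘ₗ bd) (0 : Ch X →ₗ[ZMod 2] Ch X)
    (fun S _ => ?_) (mem_Sp_true c)
  · exact h
  · rw [LinearMap.comp_apply, LinearMap.zero_apply, bd_single, map_sum]
    have e : ∀ a ∈ S, bd (Finsupp.single (S.erase a) (1 : ZMod 2)) =
        ∑ b ∈ S.erase a, Finsupp.single ((S.erase a).erase b) (1 : ZMod 2) := fun a _ => bd_single _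
    rw [Finset.sum_congr rfl e, Finset.sum_sigma']
    apply Finset.sum_involution (fun (p : (_ : X) × X) _ => (⟨p.2, p.1⟩ : (_ : X) × X))
    · intro p _
      dsimp only
      rw [Finset.erase_right_comm, add_self_ch]
    · intro p hp _ h
      rw [Finset.mem_sigma, Finset.mem_erase] at hp
      exact hp.2.1 (congrArg Sigma.fst h)
    · intro p hp
      rw [Finset.mem_sigma, Finset.mem_erase] at hp ⊢
      exact ⟨hp.2.2, hp.2.1.symm, hp.1⟩
    · intro p _
      rfl

private theorem Alg_push (X Y : Type) (f : X → Y) (c : Ch X) : bd (push f c) = push f (bd c) := by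
  have h := eq_of_basis (P := fun _ : Finset X => True) (bd ∘ₗ push f) (push f ∘ₗ bd)
    (fun S _ => ?_) (mem_Sp_true c)
  · exact h
  · rw [LinearMap.comp_apply, LinearMap.comp_apply, push_single, bd_single, map_sum]
    by_cases hc : (S.image f).card = S.card
    · have hinj : Set.InjOn f (S : Set X) := Finset.card_image_iff.1 hc
      rw [if_pos hc, bd_single, Finset.sum_image (fun a ha b hb => hinj ha hb)]
      apply Finset.sum_congr rfl
      intro a ha
      have e : (S.erase a).image f = (S.image f).erase (f a) := by
        ext y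
        rw [Finset.mem_image, Finset.mem_erase, Finset.mem_image]
        constructor
        · rintro ⟨x, hx, rfl⟩
          rw [Finset.mem_erase] at hx
          exact ⟨fun h => hx.1 (hinj hx.2 ha h), x, hx.2, rfl⟩
        · rintro ⟨hy, x, hx, rfl⟩
          exact ⟨x, Finset.mem_erase.2 ⟨fun h => hy (by rw [h]), hx⟩, rfl⟩
      rw [push_single, if_pos, e]
      apply Finset.card_image_of_injOn
      exact hinj.mono (Finset.coe_subset.2 (Finset.erase_subset a S))
    · rw [if_neg hc, map_zero]
      have h2 : ¬ Set.InjOn f (S : Set X) := fun h => hc (Finset.card_image_of_injOn h)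
      obtain ⟨a, ha, b, hb, hab, hne⟩ : ∃ a ∈ S, ∃ b ∈ S, f a = f b ∧ a ≠ b := by
        by_contra hcon
        push Not at hcon
        exact h2 (fun a ha b hb hab => hcon a ha b hb hab)
      have himg : ∀ x y : X, x ∈ S → y ∈ S → f x = f y → x ≠ y → (S.erase x).image f = S.image f := by
        intro x y hx hy hxy hn
        ext z
        rw [Finset.mem_image, Finset.mem_image]
        constructor
        · rintro ⟨w, hw, rfl⟩
          exact ⟨w, (Finset.mem_erase.1 hw).2, rfl⟩
        · rintro ⟨w, hw, rfl⟩
          by_cases hwx : w = x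
          · exact ⟨y, Finset.mem_erase.2 ⟨hn.symm, hy⟩, by rw [hwx, hxy]⟩
          · exact ⟨w, Finset.mem_erase.2 ⟨hwx, hw⟩, rfl⟩
      have ht : push f (Finsupp.single (S.erase a) (1 : ZMod 2)) =
          push f (Finsupp.single (S.erase b) (1 : ZMod 2)) := by
        rw [push_single, push_single, himg a b ha hb hab hne, himg b a hb ha hab.symm hne.symm,
          Finset.card_erase_of_mem ha, Finset.card_erase_of_mem hb]
      have hz : ∀ x ∈ (S.erase a).erase b, push f (Finsupp.single (S.erase x) (1 : ZMod 2)) = 0 := by
        intro x hx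
        rw [Finset.mem_erase, Finset.mem_erase] at hx
        rw [push_single, if_neg]
        intro h3
        have h4 : Set.InjOn f ((S.erase x : Finset X) : Set X) := Finset.card_image_iff.1 h3
        exact hne (h4 (Finset.mem_coe.2 (Finset.mem_erase.2 ⟨fun h => hx.2.1 h.symm, ha⟩))
          (Finset.mem_coe.2 (Finset.mem_erase.2 ⟨fun h => hx.1 h.symm, hb⟩)) hab)
      rw [← Finset.add_sum_erase S _ ha,
        ← Finset.add_sum_erase (S.erase a) _ (Finset.mem_erase.2 ⟨hne.symm, hb⟩),
        Finset.sum_eq_zero hz, add_zero, ht, add_self_ch]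

private theorem Alg_cone (X : Type) (b : X) (c : Ch X) : bd (cone b c) = c + cone b (bd c) := by
  have h := eq_of_basis (P := fun _ : Finset X => True) (bd ∘ₗ cone b) (LinearMap.id + cone b ∘ₗ bd)
    (fun S _ => ?_) (mem_Sp_true c)
  · exact h
  · rw [LinearMap.comp_apply, LinearMap.add_apply, LinearMap.id_apply, LinearMap.comp_apply, cone_single,
      bd_single, map_sum]
    by_cases hb : b ∈ S
    · rw [if_pos hb, map_zero, ← Finset.add_sum_erase S _ hb, cone_single,
        if_neg (Finset.notMem_erase b S), Finset.insert_erase hb, Finset.sum_eq_zero, add_zero, add_self_ch]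
      intro a ha
      rw [Finset.mem_erase] at ha
      rw [cone_single, if_pos (Finset.mem_erase.2 ⟨ha.1.symm, hb⟩)]
    · rw [if_neg hb, bd_single, Finset.sum_insert hb, Finset.erase_insert hb]
      congr 1
      apply Finset.sum_congr rfl
      intro a ha
      have hne : b ≠ a := fun h => hb (by rw [h]; exact ha)
      rw [cone_single, if_neg (fun h => hb (Finset.mem_erase.1 h).2), Finset.erase_insert_of_ne hne]

private theorem Alg_inj {X : Type} {g : X → X} (hg : Function.Injective g) (S : Finset X) :
    push g (Finsupp.single S (1 : ZMod 2)) = Finsupp.single (S.image g) (1 : ZMod 2) := by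
  rw [push_single, if_pos (Finset.card_image_of_injective S hg)]

theorem pAlg : SAlg := by
  refine ⟨Alg_bdbd, Alg_push, Alg_cone, ?_, ?_⟩
  · intro X g hg b c
    have h := eq_of_basis (P := fun _ : Finset X => True) (push g ∘ₗ cone b) (cone (g b) ∘ₗ push g)
      (fun S _ => ?_) (mem_Sp_true c)
    · exact h
    · rw [LinearMap.comp_apply, LinearMap.comp_apply, cone_single, Alg_inj hg, cone_single]
      by_cases hb : b ∈ S
      · rw [if_pos hb, map_zero, if_pos (Finset.mem_image_of_mem g hb)]
      · have h1 : g b ∉ S.image g := by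
          intro h
          obtain ⟨x, hx, hxb⟩ := Finset.mem_image.1 h
          exact hb (by rw [← hg hxb]; exact hx)
        rw [if_neg hb, if_neg h1, Alg_inj hg, Finset.image_insert]
  · intro X g hg c
    have hinj : Function.Injective g := by
      intro x y hxy
      rw [← hg x, ← hg y, hxy]
    have h := eq_of_basis (P := fun _ : Finset X => True) (push g ∘ₗ push g) LinearMap.id
      (fun S _ => ?_) (mem_Sp_true c)
    · exact h
    · rw [LinearMap.comp_apply, LinearMap.id_apply, Alg_inj hinj, Alg_inj hinj, Finset.image_image]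
      have e : g ∘ g = id := funext hg
      rw [e, Finset.image_id]

end Pool.Agent.BU
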