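import Pool.Agent.Lib.BorsukUlam.Spec

/-!
# The Borsuk-Ulam theorem
-/

set_option autoImplicit false

open scoped Classical

namespace Pool.Agent.BU

namespace BUm

private theorem ng_inj {M : ℕ} : Function.Injective (ng : (Fin M → ℝ) → (Fin M → ℝ)) := by
  intro x y h
  have h1 : -x = -y := h
  exact neg_injective h1

private theorem opp_inj {m : ℕ} : Function.Injective (opp : Lb m → Lb m) := by
  rintro ⟨a, b⟩ ⟨c, d⟩ h
  unfold opp at h
  simp only [Prod.mk.injEq] at h
  obtain ⟨h1, h2⟩ := h
  rw [h1, Bool.not_inj h2]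

private theorem good_ne {M k : ℕ} {δ : ℝ} {S : Finset (Fin M → ℝ)} (h : Good M δ k S) {x : Fin M → ℝ}
    (hx : x ∈ S) : x ≠ 0 := by
  rintro rfl
  obtain ⟨-, -, e, -, h1⟩ := h
  have h2 := (h1 0 hx).2
  simp at h2

private theorem push_cases {X Y : Type} (f : X → Y) (S : Finset X) :
    push f (Finsupp.single S (1 : ZMod 2)) = 0 ∨
      ∃ T : Finset Y, push f (Finsupp.single S (1 : ZMod 2)) = Finsupp.single T (1 : ZMod 2) ∧ T.card = S.card ∧
        ∀ a ∈ T, ∃ x ∈ S, f x = a := by
  rw [push_single]
  split_ifs with h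
  · exact Or.inr ⟨S.image f, rfl, h, fun a ha => Finset.mem_image.1 ha⟩
  · exact Or.inl rfl

private theorem push_comm {X Y : Type} (f : X → Y) (u : X → X) (v : Y → Y) (hu : Function.Injective u)
    (hv : Function.Injective v) (S : Finset X) (h : ∀ x ∈ S, f (u x) = v (f x)) :
    push f (push u (Finsupp.single S (1 : ZMod 2))) = push v (push f (Finsupp.single S (1 : ZMod 2))) := by
  rw [push_single u S, push_single f S, if_pos (Finset.card_image_of_injective S hu), push_single]
  have h1 : (S.image u).image f = (S.image f).image v := by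
    rw [Finset.image_image, Finset.image_image]
    apply Finset.image_congr
    intro x hx
    exact h x hx
  rw [h1, Finset.card_image_of_injective _ hv, Finset.card_image_of_injective _ hu]
  split_ifs with h2
  · rw [push_single, if_pos (Finset.card_image_of_injective _ hv)]
  · rw [map_zero]

end BUm

open BUm in
theorem pBU : SAlg → SSmall → SDesc → SLab → SBU := by
  intro hAlg hSmall hDesc hLab m g hg hodd
  by_contra hcon
  push Not at hcon
  obtain ⟨δ, lab, hδ, hl1, hl2⟩ := hLab m g hg hodd hcon
  obtain ⟨φ, hφ1, hφ2, hφ3⟩ := hSmall (m + 1) δ hδ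
  obtain ⟨-, hbp, -, -, -⟩ := hAlg
  refine hDesc m (fun k => push lab (φ k)) ?_ ?_ ?_
  · intro k hk
    refine map_mem_of_basis (push lab) (fun S hS => ?_) (hφ1 k (by omega))
    rcases push_cases lab S with h | ⟨T, h, hT1, hT2⟩
    · rw [h]
      exact Submodule.zero_mem _
    · rw [h]
      apply single_mem_Sp
      refine ⟨hT1.trans hS.1, ?_⟩
      intro a ha hoa
      obtain ⟨y, hy, hya⟩ := hT2 a ha
      obtain ⟨x, hx, hxy⟩ := hT2 _ hoa
      rw [← hya] at hxy
      exact hl2 S _ hS x hx y hy hxy
  · rw [hbp, hφ2 (by omega), push_single]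
    simp
  · intro k hk
    rw [hbp, hφ3 k (by omega), map_add]
    congr 1
    exact eq_of_basis (P := Good (m + 1) δ (k + 1)) ((push lab).comp (push ng)) ((push opp).comp (push lab))
      (fun S hS => push_comm lab ng opp ng_inj opp_inj S (fun x hx => hl1 x (good_ne hS hx))) (hφ1 k (by omega))

end Pool.Agent.BU
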