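import Pool.Agent.Lib.BorsukUlam.Spec

/-!
# The Borsuk-Ulam theorem: the hemispheres of the cross polytope
-/

set_option autoImplicit false

open scoped Classical

namespace Pool.Agent.BU

attribute [-instance] Fintype.decidablePiFintype

/-- the unit vectors -/
private noncomputable def Base_e (M : ℕ) (j : ℕ) : Fin M → ℝ := fun i => if (i : ℕ) = j then 1 else 0

/-- the hemispheres -/
private noncomputable def Base_phi (M : ℕ) : ℕ → Ch (Fin M → ℝ)
  | 0 => Finsupp.single {Base_e M 0} 1
  | k + 1 => cone (Base_e M (k + 1)) (Base_phi M k + push ng (Base_phi M k))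

/-- sets of signed unit vectors -/
private def Base_P (M k : ℕ) (S : Finset (Fin M → ℝ)) : Prop :=
  S.card = k + 1 ∧ (∀ x ∈ S, ∃ j ≤ k, x = Base_e M j ∨ x = -Base_e M j) ∧
    ∀ j ≤ k, ¬ (Base_e M j ∈ S ∧ -Base_e M j ∈ S)

private theorem Base_ng_inj {M : ℕ} : Function.Injective (ng : (Fin M → ℝ) → (Fin M → ℝ)) := by
  intro x y h
  exact neg_injective h

private theorem Base_push {M : ℕ} (S : Finset (Fin M → ℝ)) :
    push ng (Finsupp.single S (1 : ZMod 2)) = Finsupp.single (S.image ng) (1 : ZMod 2) := by
  rw [push_single, if_pos (Finset.card_image_of_injective S Base_ng_inj)]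

private theorem Base_ne {M j j' : ℕ} (hj : j < M) (h : j ≠ j') (s : ℝ) :
    Base_e M j ≠ s • Base_e M j' := by
  intro he
  have h1 := congrFun he ⟨j, hj⟩
  unfold Base_e at h1
  simp [h] at h1

private theorem Base_ne_neg {M j : ℕ} (hj : j < M) : Base_e M j ≠ -Base_e M j := by
  intro he
  have h1 := congrFun he ⟨j, hj⟩
  unfold Base_e at h1
  simp at h1
  linarith

private theorem Base_ng (M k : ℕ) (S : Finset (Fin M → ℝ)) (h : Base_P M k S) : Base_P M k (S.image ng) := by
  refine ⟨?_, ?_, ?_⟩
  · rw [Finset.card_image_of_injective S Base_ng_inj]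
    exact h.1
  · intro x hx
    obtain ⟨y, hy, rfl⟩ := Finset.mem_image.1 hx
    obtain ⟨j, hj, hyj⟩ := h.2.1 y hy
    refine ⟨j, hj, ?_⟩
    unfold ng
    rcases hyj with rfl | rfl
    · exact Or.inr rfl
    · exact Or.inl (neg_neg _)
  · rintro j hj ⟨h1, h2⟩
    obtain ⟨y, hy, hy1⟩ := Finset.mem_image.1 h1
    obtain ⟨z, hz, hz1⟩ := Finset.mem_image.1 h2
    unfold ng at hy1 hz1
    apply h.2.2 j hj
    have e1 : y = -Base_e M j := by rw [← hy1, neg_neg]
    have e2 : z = Base_e M j := neg_injective hz1
    rw [e1] at hy
    rw [e2] at hz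
    exact ⟨hz, hy⟩

private theorem Base_mem (M : ℕ) : ∀ k, k < M → Base_phi M k ∈ Sp (Base_P M k) := by
  intro k
  induction k with
  | zero =>
    intro hM
    apply single_mem_Sp
    refine ⟨Finset.card_singleton _, ?_, ?_⟩
    · intro x hx
      exact ⟨0, le_refl _, Or.inl (Finset.mem_singleton.1 hx)⟩
    · rintro j hj ⟨_, h2⟩
      have hj0 : j = 0 := by omega
      rw [hj0, Finset.mem_singleton] at h2
      exact Base_ne_neg hM h2.symm
  | succ k ih =>
    intro hM
    have h1 := ih (by omega)
    have h2 : push ng (Base_phi M k) ∈ Sp (Base_P M k) := by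
      apply map_mem_of_basis (push ng) _ h1
      intro S hS
      rw [Base_push]
      exact single_mem_Sp (Base_ng M k S hS)
    have h3 := (Sp (Base_P M k)).add_mem h1 h2
    show cone (Base_e M (k + 1)) (Base_phi M k + push ng (Base_phi M k)) ∈ _
    apply map_mem_of_basis (cone (Base_e M (k + 1))) _ h3
    intro S hS
    rw [cone_single]
    split_ifs with hb
    · exact Submodule.zero_mem _
    · apply single_mem_Sp
      refine ⟨?_, ?_, ?_⟩
      · rw [Finset.card_insert_of_notMem hb, hS.1]
      · intro x hx
        rcases Finset.mem_insert.1 hx with rfl | hx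
        · exact ⟨k + 1, le_refl _, Or.inl rfl⟩
        · obtain ⟨j, hj, hxj⟩ := hS.2.1 x hx
          exact ⟨j, by omega, hxj⟩
      · rintro j hj ⟨h4, h5⟩
        rcases Nat.lt_or_ge j (k + 1) with hjk | hjk
        · apply hS.2.2 j (by omega)
          constructor
          · rcases Finset.mem_insert.1 h4 with h6 | h6
            · exfalso
              apply Base_ne (M := M) (j := j) (j' := k + 1) (by omega) (by omega) 1
              rw [one_smul]
              exact h6
            · exact h6
          · rcases Finset.mem_insert.1 h5 with h6 | h6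
            · exfalso
              apply Base_ne (M := M) (j := j) (j' := k + 1) (by omega) (by omega) (-1)
              rw [neg_one_smul, ← h6, neg_neg]
            · exact h6
        · have hjk' : j = k + 1 := by omega
          rw [hjk'] at h5
          rcases Finset.mem_insert.1 h5 with h6 | h6
          · exact Base_ne_neg hM h6.symm
          · obtain ⟨i, hi, hxi⟩ := hS.2.1 _ h6
            rcases hxi with hxi | hxi
            · apply Base_ne (M := M) (j := k + 1) (j' := i) hM (by omega) (-1)
              rw [neg_one_smul, ← hxi, neg_neg]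
            · apply Base_ne (M := M) (j := k + 1) (j' := i) hM (by omega) 1
              rw [one_smul]
              exact neg_injective hxi

private theorem Base_abs (M j : ℕ) (i : Fin M) : |Base_e M j i| ≤ 1 := by
  unfold Base_e
  split_ifs <;> simp

private theorem Base_good {M k : ℕ} (hk : k < M) {S : Finset (Fin M → ℝ)} (h : Base_P M k S) :
    Good M 2 (k + 1) S := by
  have habs : ∀ x ∈ S, ∀ i, |x i| ≤ 1 := by
    intro x hx i
    obtain ⟨j, _, rfl | rfl⟩ := h.2.1 x hx
    · exact Base_abs M j i
    · rw [Pi.neg_apply, abs_neg]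
      exact Base_abs M j i
  refine ⟨h.1, ?_, ?_⟩
  · intro x hx y hy
    rw [dist_pi_le_iff (by norm_num)]
    intro i
    rw [Real.dist_eq]
    have h1 := abs_sub (x i) (y i)
    have h2 := habs x hx i
    have h3 := habs y hy i
    linarith
  · refine ⟨fun i => if -Base_e M i ∈ S then -1 else 1, ?_, ?_⟩
    · intro i
      dsimp only
      split_ifs
      · exact Or.inr rfl
      · exact Or.inl rfl
    · intro x hx
      obtain ⟨j, hj, hxj⟩ := h.2.1 x hx
      have hjM : j < M := by omega
      have key : ∀ i : Fin M, (if -Base_e M i ∈ S then (-1 : ℝ) else 1) * x i =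
          if i = ⟨j, hjM⟩ then 1 else 0 := by
        intro i
        by_cases hij : i = ⟨j, hjM⟩
        · rw [if_pos hij, hij]
          dsimp only
          rcases hxj with rfl | rfl
          · rw [if_neg (fun h5 => h.2.2 j hj ⟨hx, h5⟩)]
            unfold Base_e
            simp
          · rw [if_pos hx]
            unfold Base_e
            simp
        · rw [if_neg hij]
          have hij' : ¬ ((i : ℕ) = j) := fun h5 => hij (Fin.ext h5)
          have hx0 : x i = 0 := by
            rcases hxj with rfl | rfl
            · unfold Base_e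
              rw [if_neg hij']
            · rw [Pi.neg_apply]
              unfold Base_e
              rw [if_neg hij', neg_zero]
          rw [hx0, mul_zero]
      constructor
      · intro i
        dsimp only
        rw [key i]
        split_ifs <;> norm_num
      · dsimp only
        rw [Finset.sum_congr rfl (fun i _ => key i), Finset.sum_ite_eq', if_pos (Finset.mem_univ _)]

theorem pBase : SAlg → SBase := by
  rintro ⟨_, hA2, hA3, _, hA5⟩ M
  have hng : ∀ x : Fin M → ℝ, ng (ng x) = x := fun x => neg_neg x
  have hb0 : bd (Base_phi M 0) = Finsupp.single ∅ 1 := by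
    show bd (Finsupp.single {Base_e M 0} 1) = _
    rw [bd_single, Finset.sum_singleton, Finset.erase_singleton]
  have hD : ∀ k, bd (Base_phi M k + push ng (Base_phi M k)) = 0 ∧
      bd (Base_phi M (k + 1)) = Base_phi M k + push ng (Base_phi M k) := by
    intro k
    have hstep : ∀ k, bd (Base_phi M k + push ng (Base_phi M k)) = 0 →
        bd (Base_phi M (k + 1)) = Base_phi M k + push ng (Base_phi M k) := by
      intro k h
      show bd (cone (Base_e M (k + 1)) (Base_phi M k + push ng (Base_phi M k))) = _
      rw [hA3, h, map_zero, add_zero]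
    induction k with
    | zero =>
      have h0 : bd (Base_phi M 0 + push ng (Base_phi M 0)) = 0 := by
        rw [map_add, hA2, hb0, push_single, if_pos (by simp), Finset.image_empty, add_self_ch]
      exact ⟨h0, hstep 0 h0⟩
    | succ k ih =>
      have h1 : bd (Base_phi M (k + 1) + push ng (Base_phi M (k + 1))) = 0 := by
        rw [map_add, hA2, ih.2, map_add, hA5 _ ng hng]
        have e : Base_phi M k + push ng (Base_phi M k) + (push ng (Base_phi M k) + Base_phi M k) =
            (Base_phi M k + push ng (Base_phi M k)) + (Base_phi M k + push ng (Base_phi M k)) := by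
          rw [add_comm (push ng (Base_phi M k)) (Base_phi M k)]
        rw [e, add_self_ch]
      exact ⟨h1, hstep (k + 1) h1⟩
  refine ⟨Base_phi M, ?_, fun _ => hb0, fun k _ => (hD k).2⟩
  intro k hk
  exact Sp_mono (fun S hS => Base_good hk hS) (Base_mem M k hk)

end Pool.Agent.BU
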