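import Mathlib

/-!
# The Borsuk-Ulam theorem: definitions

Simplicial chains over the field with two elements, on finite subsets of a type (all decidability is classical).

* `Ch X`: chains, `bd` the boundary (with the empty set in degree `-1`), `push f` the chain map of a map `f` (sets on which
  `f` is not injective are sent to `0`), `cone b` the cone with apex `b` (`0` on sets containing `b`).
* `Sp P`: chains all of whose sets satisfy `P`.
* `Good M δ k S`: `S` is a set of `k` points of a closed facet of the cross polytope `∑ |x_i| = 1` in `Fin M → ℝ`, with mutual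
  distances `≤ δ`.
* `Lb m`: labels `Fin m × Bool`, `opp` the opposite label, `Adm k S`: `S` is a set of `k` labels without opposite labels.
-/

set_option autoImplicit false

open scoped Classical

namespace Pool.Agent.BU

/-- Chains with coefficients modulo two. -/
abbrev Ch (X : Type) : Type := Finset X →₀ ZMod 2

/-- The boundary. -/
noncomputable def bd {X : Type} : Ch X →ₗ[ZMod 2] Ch X :=
  Finsupp.linearCombination (ZMod 2) (fun S : Finset X => ∑ a ∈ S, Finsupp.single (S.erase a) (1 : ZMod 2))

/-- The chain map of a map. -/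
noncomputable def push {X Y : Type} (f : X → Y) : Ch X →ₗ[ZMod 2] Ch Y :=
  Finsupp.linearCombination (ZMod 2) (fun S : Finset X =>
    if (S.image f).card = S.card then Finsupp.single (S.image f) (1 : ZMod 2) else 0)

/-- The cone with apex `b`. -/
noncomputable def cone {X : Type} (b : X) : Ch X →ₗ[ZMod 2] Ch X :=
  Finsupp.linearCombination (ZMod 2) (fun S : Finset X =>
    if b ∈ S then 0 else Finsupp.single (insert b S) (1 : ZMod 2))

theorem bd_single {X : Type} (S : Finset X) :
    bd (Finsupp.single S (1 : ZMod 2)) = ∑ a ∈ S, Finsupp.single (S.erase a) (1 : ZMod 2) := by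
  unfold bd
  rw [Finsupp.linearCombination_single, one_smul]

theorem push_single {X Y : Type} (f : X → Y) (S : Finset X) :
    push f (Finsupp.single S (1 : ZMod 2)) =
      if (S.image f).card = S.card then Finsupp.single (S.image f) (1 : ZMod 2) else 0 := by
  unfold push
  rw [Finsupp.linearCombination_single, one_smul]

theorem cone_single {X : Type} (b : X) (S : Finset X) :
    cone b (Finsupp.single S (1 : ZMod 2)) =
      if b ∈ S then 0 else Finsupp.single (insert b S) (1 : ZMod 2) := by
  unfold cone
  rw [Finsupp.linearCombination_single, one_smul]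

/-- Chains supported by the sets with the property `P`. -/
noncomputable def Sp {X : Type} (P : Finset X → Prop) : Submodule (ZMod 2) (Ch X) :=
  Finsupp.supported (ZMod 2) (ZMod 2) {S | P S}

theorem single_mem_Sp {X : Type} {P : Finset X → Prop} {S : Finset X} (h : P S) :
    Finsupp.single S (1 : ZMod 2) ∈ Sp P := Finsupp.single_mem_supported _ _ h

/-- A linear map sends `Sp P` to a submodule `N` if it does so for the basis elements. -/
theorem map_mem_of_basis {X Y : Type} {P : Finset X → Prop} {N : Submodule (ZMod 2) (Ch Y)} (F : Ch X →ₗ[ZMod 2] Ch Y)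
    (h : ∀ S, P S → F (Finsupp.single S (1 : ZMod 2)) ∈ N) {c : Ch X} (hc : c ∈ Sp P) : F c ∈ N := by
  have h1 : Sp P = Submodule.span (ZMod 2) ((fun S : Finset X => Finsupp.single S (1 : ZMod 2)) '' {S | P S}) :=
    Finsupp.supported_eq_span_single (ZMod 2) {S | P S}
  rw [h1] at hc
  have h2 : Submodule.map F (Submodule.span (ZMod 2) ((fun S : Finset X => Finsupp.single S (1 : ZMod 2)) '' {S | P S})) ≤ N := by
    rw [Submodule.map_span_le]
    rintro _ ⟨S, hS, rfl⟩
    exact h S hS
  exact h2 (Submodule.mem_map_of_mem hc)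

/-- Two linear maps which agree on the basis elements with `P` agree on `Sp P`. -/
theorem eq_of_basis {X Y : Type} {P : Finset X → Prop} (F G : Ch X →ₗ[ZMod 2] Ch Y)
    (h : ∀ S, P S → F (Finsupp.single S (1 : ZMod 2)) = G (Finsupp.single S (1 : ZMod 2))) {c : Ch X} (hc : c ∈ Sp P) :
    F c = G c := by
  have h1 : (F - G) c ∈ (⊥ : Submodule (ZMod 2) (Ch Y)) := by
    refine map_mem_of_basis (F - G) (fun S hS => ?_) hc
    rw [Submodule.mem_bot, LinearMap.sub_apply, h S hS, sub_self]
  rw [Submodule.mem_bot, LinearMap.sub_apply] at h1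
  exact sub_eq_zero.1 h1

/-- Every chain is in `Sp` of the trivial property. -/
theorem mem_Sp_true {X : Type} (c : Ch X) : c ∈ Sp (fun _ : Finset X => True) := by
  unfold Sp
  rw [Finsupp.mem_supported]
  exact fun _ _ => trivial

theorem Sp_mono {X : Type} {P Q : Finset X → Prop} (h : ∀ S, P S → Q S) : Sp P ≤ Sp Q :=
  Finsupp.supported_mono (fun S hS => h S hS)

/-- Twice a chain is zero. -/
theorem add_self_ch {X : Type} (c : Ch X) : c + c = 0 := by
  have h : (2 : ZMod 2) = 0 := by decide
  rw [← two_smul (ZMod 2) c, h, zero_smul]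

/-- A small set of `k` points of a facet of the cross polytope. -/
def Good (M : ℕ) (δ : ℝ) (k : ℕ) (S : Finset (Fin M → ℝ)) : Prop :=
  S.card = k ∧ (∀ x ∈ S, ∀ y ∈ S, dist x y ≤ δ) ∧
    ∃ e : Fin M → ℝ, (∀ i, e i = 1 ∨ e i = -1) ∧ ∀ x ∈ S, (∀ i, 0 ≤ e i * x i) ∧ ∑ i, e i * x i = 1

/-- The antipodal map. -/
def ng {M : ℕ} (x : Fin M → ℝ) : Fin M → ℝ := -x

/-- Labels. -/
abbrev Lb (m : ℕ) : Type := Fin m × Bool

/-- The opposite label. -/
def opp {m : ℕ} (a : Lb m) : Lb m := (a.1, !a.2)

/-- A set of `k` labels without opposite labels. -/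
def Adm (m k : ℕ) (S : Finset (Lb m)) : Prop := S.card = k ∧ ∀ a ∈ S, opp a ∉ S

end Pool.Agent.BU
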