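import Pool.Agent.Lib.BorsukUlam.Spec

/-!
# The Borsuk-Ulam theorem: descent (helper50)
-/

set_option autoImplicit false

open scoped Classical

namespace Pool.Agent.BU

private theorem Desc_opp_opp {m : ℕ} (a : Lb m) : opp (opp a) = a := by
  unfold opp
  simp

private theorem Desc_opp_inj {m : ℕ} : Function.Injective (opp : Lb m → Lb m) := by
  intro a b h
  rw [← Desc_opp_opp a, h, Desc_opp_opp]

/-- The image under an involution. -/
private noncomputable def Desc_f {X : Type} (g : X → X) (S : Finset X) : Finset X := S.image g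

private theorem Desc_ff {X : Type} {g : X → X} (hg : ∀ a, g (g a) = a) (S : Finset X) :
    Desc_f g (Desc_f g S) = S := by
  unfold Desc_f
  rw [Finset.image_image]
  have : (g ∘ g) = id := funext hg
  rw [this, Finset.image_id]

private theorem Desc_mem {X : Type} (g : X → X) {S : Finset X} {a : X} (ha : a ∈ S) :
    g a ∈ Desc_f g S := Finset.mem_image_of_mem g ha

private theorem Desc_card_erase {X : Type} {S : Finset X} {a : X} (ha : a ∈ S) :
    (S.erase a).card + 1 = S.card ∧ ∀ b ∈ S.erase a, b ∈ S :=
  ⟨Finset.card_erase_add_one ha, fun _ hb => Finset.mem_of_mem_erase hb⟩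

private theorem Desc_pt {X : Type} (g : X → X) (a : X) :
    push g (bd (Finsupp.single {a} (1 : ZMod 2))) = bd (Finsupp.single {a} (1 : ZMod 2)) := by
  rw [bd_single, Finset.sum_singleton, Finset.erase_singleton, push_single]
  simp

private theorem Desc_push0 {X : Type} {g : X → X} (hg : Function.Injective g) (c : Ch X) :
    push g c = Finsupp.mapDomain (Desc_f g) c := by
  have h : ∀ S : Finset X, push g (Finsupp.single S (1 : ZMod 2)) =
      (Finsupp.lmapDomain (ZMod 2) (ZMod 2) (Desc_f g)) (Finsupp.single S (1 : ZMod 2)) := by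
    intro S
    rw [push_single, if_pos (Finset.card_image_of_injective _ hg), Finsupp.lmapDomain_apply,
      Finsupp.mapDomain_single]
    rfl
  have h2 := eq_of_basis (P := fun _ => True) (push g) (Finsupp.lmapDomain (ZMod 2) (ZMod 2) (Desc_f g))
    (fun S _ => h S) (mem_Sp_true c)
  rw [h2, Finsupp.lmapDomain_apply]

private theorem Desc_bd0 {X : Type} {P Q : Finset X → Prop} (h : ∀ S, P S → ∀ a ∈ S, Q (S.erase a))
    {c : Ch X} (hc : c ∈ Sp P) : bd c ∈ Sp Q := by
  refine map_mem_of_basis bd (fun S hS => ?_) hc
  rw [bd_single]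
  exact Submodule.sum_mem _ fun a ha => single_mem_Sp (h S hS a ha)

/-- The image under the antipodal labels. -/
private noncomputable def Desc_e {m : ℕ} (S : Finset (Lb m)) : Finset (Lb m) := Desc_f opp S

private theorem Desc_ee {m : ℕ} (S : Finset (Lb m)) : Desc_e (Desc_e S) = S :=
  Desc_ff Desc_opp_opp S

private theorem Desc_e_inj {m : ℕ} : Function.Injective (Desc_e : Finset (Lb m) → Finset (Lb m)) := by
  intro S T h
  rw [← Desc_ee S, h, Desc_ee]

private theorem Desc_push {m : ℕ} (c : Ch (Lb m)) : push opp c = Finsupp.mapDomain Desc_e c :=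
  Desc_push0 Desc_opp_inj c

private theorem Desc_push_apply {m : ℕ} (c : Ch (Lb m)) (S : Finset (Lb m)) :
    (push opp c) S = c (Desc_e S) := by
  rw [Desc_push]
  have h := Finsupp.mapDomain_apply Desc_e_inj c (Desc_e S)
  rw [Desc_ee] at h
  exact h

private theorem Desc_free {m k : ℕ} (hk : 1 ≤ k) {S : Finset (Lb m)} (hS : Adm m k S) :
    Desc_e S ≠ S := by
  intro h
  have hne : S.Nonempty := by
    rw [← Finset.card_pos, hS.1]
    omega
  obtain ⟨a, ha⟩ := hne
  apply hS.2 a ha
  rw [← h]
  exact Desc_mem opp ha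

/-- Exactness. -/
private theorem Desc_exact {m k : ℕ} (hk : 1 ≤ k) (c : Ch (Lb m)) (hc : c ∈ Sp (Adm m k))
    (h0 : c + push opp c = 0) : ∃ z ∈ Sp (Adm m k), c = z + push opp z := by
  let idx : Finset (Lb m) → ℕ := fun S => Fintype.equivFin (Finset (Lb m)) S
  have hidx : Function.Injective idx := by
    intro S T h
    exact (Fintype.equivFin (Finset (Lb m))).injective (Fin.ext h)
  let R : Finset (Lb m) → Prop := fun S => idx S < idx (Desc_e S)
  let z : Ch (Lb m) := c.filter R
  have hz : ∀ S, z S = if R S then c S else 0 := fun S => Finsupp.filter_apply R c S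
  refine ⟨z, ?_, ?_⟩
  · unfold Sp at hc ⊢
    rw [Finsupp.mem_supported] at hc ⊢
    intro S hS
    apply hc
    have : S ∈ z.support := hS
    rw [Finsupp.support_filter, Finset.mem_filter] at this
    exact this.1
  · ext S
    rw [Finsupp.add_apply, Desc_push_apply, hz, hz]
    have h1 : c S + c (Desc_e S) = 0 := by
      have := DFunLike.congr_fun h0 S
      rwa [Finsupp.add_apply, Desc_push_apply] at this
    have h2 : c (Desc_e S) = c S := by
      have h3 : c S + c S = 0 := by
        rw [← two_mul]
        have : (2 : ZMod 2) = 0 := by decide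
        rw [this, zero_mul]
      exact add_left_cancel (h1.trans h3.symm)
    rw [h2]
    by_cases hcS : c S = 0
    · rw [hcS]
      simp
    · have hA : Adm m k S := by
        unfold Sp at hc
        rw [Finsupp.mem_supported] at hc
        exact hc (Finsupp.mem_support_iff.mpr hcS)
      have hne : idx (Desc_e S) ≠ idx S := fun h => Desc_free hk hA (hidx h)
      have hR2 : R (Desc_e S) ↔ idx (Desc_e S) < idx S := by
        simp only [R]
        rw [Desc_ee]
      rcases lt_or_gt_of_ne hne with h | h
      · have hn : ¬ R S := fun h' => lt_asymm h h'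
        rw [if_neg hn, if_pos (hR2.mpr h), zero_add]
      · have hn : ¬ R (Desc_e S) := fun h' => lt_asymm h (hR2.mp h')
        rw [if_neg hn, if_pos (show R S from h), add_zero]

/-- The boundary of an admissible chain is admissible. -/
private theorem Desc_bd {m k : ℕ} {c : Ch (Lb m)} (hc : c ∈ Sp (Adm m (k + 1))) :
    bd c ∈ Sp (Adm m k) := by
  refine Desc_bd0 (fun S hS a ha => ?_) hc
  obtain ⟨h1, h2⟩ := Desc_card_erase ha
  refine ⟨?_, fun b hb hb2 => hS.2 b (h2 b hb) (h2 _ hb2)⟩
  have := hS.1
  omega

private theorem Desc_empty {m : ℕ} {S : Finset (Lb m)} (hS : Adm m (m + 1) S) : False := by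
  have h : ∃ a ∈ S, ∃ b ∈ S, a ≠ b ∧ a.1 = b.1 := by
    apply Finset.exists_ne_map_eq_of_card_lt_of_maps_to (t := Finset.univ)
    · rw [Finset.card_univ, Fintype.card_fin, hS.1]
      omega
    · intro a _
      exact Finset.mem_univ _
  obtain ⟨a, ha, b, hb, hab, h1⟩ := h
  apply hS.2 a ha
  have : opp a = b := by
    obtain ⟨a1, a2⟩ := a
    obtain ⟨b1, b2⟩ := b
    simp only at h1
    subst h1
    unfold opp
    simp only [Prod.mk.injEq, true_and]
    cases a2 <;> cases b2 <;> simp_all
  rw [this]
  exact hb

theorem pDesc : SAlg → SDesc := by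
  intro hAlg m p hp h0 hb
  obtain ⟨A1, A2, -, -, A5⟩ := hAlg
  have hD : ∀ j : ℕ, ∀ k : ℕ, k + j = m → ∃ y z, z ∈ Sp (Adm m (k + 1)) ∧
      p k = bd y + z + push opp z := by
    intro j
    induction j with
    | zero =>
      intro k hk
      rw [add_zero] at hk
      subst hk
      refine ⟨0, 0, Submodule.zero_mem _, ?_⟩
      have h1 := hp k le_rfl
      have h2 : p k = 0 := by
        unfold Sp at h1
        rw [Finsupp.mem_supported] at h1
        rw [← Finsupp.support_eq_empty, Finset.eq_empty_iff_forall_notMem]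
        intro S hS
        exact Desc_empty (h1 hS)
      rw [h2]
      simp
    | succ j ih =>
      intro k hk
      obtain ⟨y, z, hz, hyz⟩ := ih (k + 1) (by omega)
      have e1 : p k + push opp (p k) = bd z + push opp (bd z) := by
        rw [← hb k (by omega), hyz, map_add, map_add, A1, zero_add, A2]
      have hc : p k + bd z ∈ Sp (Adm m (k + 1)) :=
        Submodule.add_mem _ (hp k (by omega)) (Desc_bd hz)
      have hc0 : (p k + bd z) + push opp (p k + bd z) = 0 := by
        have e2 : (p k + bd z) + push opp (p k + bd z) =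
            (p k + push opp (p k)) + (bd z + push opp (bd z)) := by
          rw [map_add]; abel
        rw [e2, e1, add_self_ch]
      obtain ⟨z', hz', hzz⟩ := Desc_exact (by omega) _ hc hc0
      refine ⟨z, z', hz', ?_⟩
      have e3 : p k = bd z + (p k + bd z) := by
        have : bd z + (p k + bd z) = p k + (bd z + bd z) := by abel
        rw [this, add_self_ch, add_zero]
      rw [e3, hzz, add_assoc]
  obtain ⟨y, z, hz, hyz⟩ := hD m 0 (by omega)
  have e1 : bd (p 0) = bd z + push opp (bd z) := by
    rw [hyz, map_add, map_add, A1, zero_add, A2]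
  have e2 : push opp (bd z) = bd z := by
    refine eq_of_basis ((push opp).comp bd) bd (fun S hS => ?_) hz
    rw [LinearMap.comp_apply]
    obtain ⟨a, ha⟩ := Finset.card_eq_one.mp hS.1
    rw [ha]
    exact Desc_pt opp a
  rw [e2, add_self_ch, h0] at e1
  have := DFunLike.congr_fun e1 ∅
  simp at this

end Pool.Agent.BU
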