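import Pool.Agent.Lib.BorsukUlam.Spec

/-!
# The Borsuk-Ulam theorem: labels from an odd map
-/

set_option autoImplicit false

open scoped Classical

namespace Pool.Agent.BU

namespace Lab

/-- `j` is an index of a coordinate of largest absolute value -/
private def Mx {m : ℕ} (v : Fin m → ℝ) (j : Fin m) : Prop := ∀ i, |v i| ≤ |v j|

private theorem Mx_neg {m : ℕ} (v : Fin m → ℝ) : Mx (-v) = Mx v := by
  funext j
  unfold Mx
  simp only [Pi.neg_apply, abs_neg]

private theorem Mx_norm {m : ℕ} {v : Fin m → ℝ} {j : Fin m} (h : Mx v j) : ‖v‖ ≤ |v j| :=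
  (pi_norm_le_iff_of_nonneg (abs_nonneg _)).2 fun i => by
    rw [Real.norm_eq_abs]
    exact h i

/-- the sphere of the norm `∑ |x i|` -/
private def KK (M : ℕ) : Set (Fin M → ℝ) := {x | ∑ i, |x i| = 1}

private theorem KK_compact (M : ℕ) : IsCompact (KK M) := by
  apply Metric.isCompact_of_isClosed_isBounded
  · exact isClosed_eq (by fun_prop) continuous_const
  · rw [isBounded_iff_forall_norm_le]
    refine ⟨1, fun x hx => ?_⟩
    rw [pi_norm_le_iff_of_nonneg zero_le_one]
    intro i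
    rw [Real.norm_eq_abs]
    have h1 : ∑ i, |x i| = 1 := hx
    rw [← h1]
    exact Finset.single_le_sum (f := fun i => |x i|) (fun i _ => abs_nonneg _) (Finset.mem_univ i)

private theorem KK_ne {M : ℕ} {x : Fin M → ℝ} (hx : x ∈ KK M) : x ≠ 0 := by
  rintro rfl
  have h1 : ∑ i : Fin M, |(0 : Fin M → ℝ) i| = 1 := hx
  simp at h1

private theorem good_KK {M k : ℕ} {δ : ℝ} {S : Finset (Fin M → ℝ)} (h : Good M δ k S) {x : Fin M → ℝ}
    (hx : x ∈ S) : x ∈ KK M := by
  obtain ⟨-, -, e, he, h1⟩ := h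
  obtain ⟨h2, h3⟩ := h1 x hx
  change ∑ i, |x i| = 1
  rw [← h3]
  apply Finset.sum_congr rfl
  intro i _
  have h4 := h2 i
  rcases he i with h5 | h5
  · rw [h5, one_mul] at h4 ⊢
    exact abs_of_nonneg h4
  · rw [h5] at h4 ⊢
    rw [abs_of_nonpos (by linarith)]
    ring

end Lab

open Lab in
theorem pLab : SLab := by
  intro m g hg hodd hne
  have hm : Nonempty (Fin m) := by
    rcases Nat.eq_zero_or_pos m with h | h
    · exfalso
      subst h
      refine hne (fun _ => 1) ?_ (Subsingleton.elim _ _)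
      intro h
      have := congrFun h 0
      simp at this
    · exact ⟨⟨0, h⟩⟩
  obtain ⟨sel, hsel⟩ : ∃ sel : (Fin m → Prop) → Fin m, ∀ P : Fin m → Prop, (∃ j, P j) → P (sel P) :=
    ⟨fun P => Classical.epsilon P, fun P hP => Classical.epsilon_spec hP⟩
  have hMx : ∀ v : Fin m → ℝ, Mx v (sel (Mx v)) := by
    intro v
    apply hsel
    exact Finite.exists_max (fun i => |v i|)
  -- compactness
  have hK := KK_compact (m + 1)
  have hgK : ContinuousOn g (KK (m + 1)) := hg.mono fun x hx => KK_ne hx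
  have hKn : (KK (m + 1)).Nonempty := by
    refine ⟨Pi.single 0 1, ?_⟩
    change ∑ i, |(Pi.single 0 1 : Fin (m + 1) → ℝ) i| = 1
    rw [Finset.sum_eq_single 0]
    · simp
    · intro i _ hi
      rw [Pi.single_eq_of_ne hi, abs_zero]
    · intro h
      exact absurd (Finset.mem_univ _) h
  obtain ⟨x0, hx0, hmin⟩ := hK.exists_isMinOn hKn hgK.norm
  obtain ⟨ε, hε⟩ : ∃ ε : ℝ, ε = ‖g x0‖ := ⟨_, rfl⟩
  have hε0 : 0 < ε := by
    rw [hε]
    exact norm_pos_iff.2 (hne x0 (KK_ne hx0))
  have hεx : ∀ x ∈ KK (m + 1), ε ≤ ‖g x‖ := by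
    intro x hx
    rw [hε]
    exact hmin hx
  obtain ⟨δ, hδ0, hδ⟩ := Metric.uniformContinuousOn_iff.1 (hK.uniformContinuousOn_of_continuous hgK) ε hε0
  refine ⟨δ / 2, fun x => (sel (Mx (g x)), decide (0 < g x (sel (Mx (g x))))), by positivity, ?_, ?_⟩
  · intro x hx
    have h1 : g (ng x) = - g x := hodd x
    unfold opp
    beta_reduce
    rw [h1, Mx_neg]
    have h2 := Mx_norm (hMx (g x))
    have h3 : 0 < ‖g x‖ := norm_pos_iff.2 (hne x hx)
    have h4 : g x (sel (Mx (g x))) ≠ 0 := by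
      intro h
      rw [h, abs_zero] at h2
      linarith
    refine Prod.ext rfl ?_
    change decide (0 < (-g x) (sel (Mx (g x)))) = !decide (0 < g x (sel (Mx (g x))))
    rw [Pi.neg_apply, ← decide_not]
    apply decide_eq_decide.2
    rw [neg_pos, not_lt]
    exact ⟨fun h => h.le, fun h => lt_of_le_of_ne h h4⟩
  · intro S k hS x hx y hy hxy
    have hxK := good_KK hS hx
    have hyK := good_KK hS hy
    have hd := hδ x hxK y hyK (lt_of_le_of_lt (hS.2.1 x hx y hy) (by linarith))
    unfold opp at hxy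
    beta_reduce at hxy
    rw [Prod.mk.injEq] at hxy
    obtain ⟨h1, h2⟩ := hxy
    have h3 := (hεx x hxK).trans (Mx_norm (hMx (g x)))
    have h4 := (hεx y hyK).trans (Mx_norm (hMx (g y)))
    dsimp only at h1 h2
    rw [← h1] at h2 h4
    generalize sel (Mx (g x)) = j at *
    have h5 : dist (g x j) (g y j) < ε := lt_of_le_of_lt (dist_le_pi_dist _ _ j) hd
    rw [Real.dist_eq] at h5
    rw [← decide_not] at h2
    have h6 : 0 < g x j ↔ ¬ 0 < g y j := decide_eq_decide.1 h2
    rcases lt_or_ge 0 (g x j) with h7 | h7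
    · have h8 := not_lt.1 (h6.1 h7)
      rw [abs_of_pos h7] at h3
      rw [abs_of_nonpos h8] at h4
      have := le_abs_self (g x j - g y j)
      linarith
    · have h8 : 0 < g y j := by
        by_contra h
        exact absurd (h6.2 h) (not_lt.2 h7)
      rw [abs_of_nonpos h7] at h3
      rw [abs_of_pos h8] at h4
      have := neg_abs_le (g x j - g y j)
      linarith

end Pool.Agent.BU
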