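import Pool.Agent.Lib.BorsukUlam.Spec

/-!
# The Borsuk-Ulam theorem: barycentric subdivision
-/

set_option autoImplicit false

open scoped Classical

namespace Pool.Agent.BU

attribute [-instance] Fintype.decidablePiFintype

private noncomputable def Sd_bary {M : ℕ} (S : Finset (Fin M → ℝ)) : Fin M → ℝ := (S.card : ℝ)⁻¹ • ∑ x ∈ S, x

private noncomputable def Sd_N {M : ℕ} : ℕ → Finset (Fin M → ℝ) → Ch (Fin M → ℝ)
  | 0, _ => Finsupp.single ∅ 1
  | n + 1, S => cone (Sd_bary S) (∑ a ∈ S, Sd_N n (S.erase a))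

private noncomputable def Sd_L (M : ℕ) : Ch (Fin M → ℝ) →ₗ[ZMod 2] Ch (Fin M → ℝ) :=
  Finsupp.linearCombination (ZMod 2) (fun S : Finset (Fin M → ℝ) => Sd_N S.card S)

private theorem Sd_single {M : ℕ} (S : Finset (Fin M → ℝ)) :
    Sd_L M (Finsupp.single S (1 : ZMod 2)) = Sd_N S.card S := by
  unfold Sd_L
  rw [Finsupp.linearCombination_single, one_smul]

private theorem Sd_empty (M : ℕ) : Sd_L M (Finsupp.single ∅ (1 : ZMod 2)) = Finsupp.single ∅ 1 := by
  rw [Sd_single, Finset.card_empty]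
  rfl

private theorem Sd_bd {M : ℕ} (S : Finset (Fin M → ℝ)) :
    Sd_L M (bd (Finsupp.single S (1 : ZMod 2))) =
      ∑ a ∈ S, Sd_L M (Finsupp.single (S.erase a) (1 : ZMod 2)) := by
  rw [bd_single, map_sum]

private theorem Sd_step {M n : ℕ} (S : Finset (Fin M → ℝ)) (h : S.card = n + 1) :
    Sd_L M (Finsupp.single S (1 : ZMod 2)) =
      cone (Sd_bary S) (Sd_L M (bd (Finsupp.single S (1 : ZMod 2)))) := by
  rw [Sd_single, h, Sd_bd]
  show cone (Sd_bary S) (∑ a ∈ S, Sd_N n (S.erase a)) = _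
  congr 1
  apply Finset.sum_congr rfl
  intro a ha
  rw [Sd_single, Finset.card_erase_of_mem ha, h, Nat.add_sub_cancel]

private theorem Sd_comm (hA : SAlg) {M : ℕ} : ∀ (n : ℕ) (S : Finset (Fin M → ℝ)), S.card = n →
    bd (Sd_L M (Finsupp.single S (1 : ZMod 2))) = Sd_L M (bd (Finsupp.single S (1 : ZMod 2))) := by
  obtain ⟨hA1, _, hA3, _, _⟩ := hA
  intro n
  induction n with
  | zero =>
    intro S hS
    rw [Finset.card_eq_zero] at hS
    rw [hS, Sd_empty, bd_single, Finset.sum_empty, map_zero]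
  | succ n ih =>
    intro S hS
    have h0 : bd (Sd_L M (bd (Finsupp.single S (1 : ZMod 2)))) = 0 := by
      have h1 : bd (Sd_L M (bd (Finsupp.single S (1 : ZMod 2)))) =
          Sd_L M (bd (bd (Finsupp.single S (1 : ZMod 2)))) := by
        rw [Sd_bd, map_sum, bd_single, map_sum, map_sum]
        apply Finset.sum_congr rfl
        intro a ha
        apply ih
        rw [Finset.card_erase_of_mem ha, hS, Nat.add_sub_cancel]
      rw [h1, hA1, map_zero]
    rw [Sd_step S hS, hA3, h0, map_zero, add_zero]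

private theorem Sd_ng_inj {M : ℕ} : Function.Injective (ng : (Fin M → ℝ) → (Fin M → ℝ)) := by
  intro x y h
  exact neg_injective h

private theorem Sd_push {M : ℕ} (S : Finset (Fin M → ℝ)) :
    push ng (Finsupp.single S (1 : ZMod 2)) = Finsupp.single (S.image ng) (1 : ZMod 2) := by
  rw [push_single, if_pos (Finset.card_image_of_injective S Sd_ng_inj)]

private theorem Sd_bary_ng {M : ℕ} (S : Finset (Fin M → ℝ)) : Sd_bary (S.image ng) = ng (Sd_bary S) := by
  unfold Sd_bary
  rw [Finset.card_image_of_injective S Sd_ng_inj, Finset.sum_image (fun a _ b _ h => Sd_ng_inj h)]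
  unfold ng
  rw [Finset.sum_neg_distrib, smul_neg]

private theorem Sd_ng (hA : SAlg) {M : ℕ} : ∀ (n : ℕ) (S : Finset (Fin M → ℝ)), S.card = n →
    Sd_L M (push ng (Finsupp.single S (1 : ZMod 2))) =
      push ng (Sd_L M (Finsupp.single S (1 : ZMod 2))) := by
  obtain ⟨_, hA2, _, hA4, _⟩ := hA
  intro n
  induction n with
  | zero =>
    intro S hS
    rw [Finset.card_eq_zero] at hS
    rw [hS, Sd_push, Finset.image_empty, Sd_empty, Sd_push, Finset.image_empty]
  | succ n ih =>
    intro S hS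
    have h1 : (S.image ng).card = n + 1 := by
      rw [Finset.card_image_of_injective S Sd_ng_inj, hS]
    have h2 : Sd_L M (bd (Finsupp.single (S.image ng) (1 : ZMod 2))) =
        push ng (Sd_L M (bd (Finsupp.single S (1 : ZMod 2)))) := by
      rw [← Sd_push, hA2, bd_single, map_sum, map_sum, map_sum, map_sum]
      apply Finset.sum_congr rfl
      intro a ha
      apply ih
      rw [Finset.card_erase_of_mem ha, hS, Nat.add_sub_cancel]
    rw [Sd_push, Sd_step _ h1, h2, Sd_bary_ng, ← hA4 _ ng Sd_ng_inj, ← Sd_step S hS]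

/-- The barycenter is in the convex hull. -/
private theorem Sd_bary_mem {M : ℕ} {S : Finset (Fin M → ℝ)} {n : ℕ} (h : S.card = n + 1) :
    Sd_bary S ∈ convexHull ℝ (S : Set (Fin M → ℝ)) := by
  unfold Sd_bary
  rw [Finset.smul_sum]
  have hc : (0 : ℝ) < (S.card : ℝ) := by
    rw [h]
    positivity
  apply (convex_convexHull ℝ (S : Set (Fin M → ℝ))).sum_mem
  · intro x _
    exact (inv_pos.2 hc).le
  · rw [Finset.sum_const, nsmul_eq_mul, mul_inv_cancel₀ hc.ne']
  · intro x hx
    exact subset_convexHull ℝ _ hx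

/-- The distance of the barycenter to the points of the set. -/
private theorem Sd_bary_dist {M : ℕ} {S : Finset (Fin M → ℝ)} {n : ℕ} (h : S.card = n + 1) {δ : ℝ}
    (hd : ∀ x ∈ S, ∀ y ∈ S, dist x y ≤ δ) (x : Fin M → ℝ) (hx : x ∈ S) :
    dist x (Sd_bary S) ≤ (1 - 1 / ((n : ℝ) + 1)) * δ := by
  have hc : ((n : ℝ) + 1) ≠ 0 := by positivity
  have e1 : x - Sd_bary S = ((n : ℝ) + 1)⁻¹ • ∑ z ∈ S, (x - z) := by
    unfold Sd_bary
    rw [Finset.sum_sub_distrib, Finset.sum_const, smul_sub, h]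
    rw [← Nat.cast_smul_eq_nsmul ℝ, smul_smul]
    push_cast
    rw [inv_mul_cancel₀ hc, one_smul]
  rw [dist_eq_norm, e1, norm_smul, Real.norm_eq_abs, abs_of_pos (by positivity)]
  have e2 : ‖∑ z ∈ S, (x - z)‖ ≤ (n : ℝ) * δ := by
    rw [← Finset.add_sum_erase S _ hx, sub_self, zero_add]
    refine (norm_sum_le _ _).trans ?_
    have e3 : ∑ z ∈ S.erase x, ‖x - z‖ ≤ ∑ z ∈ S.erase x, δ := by
      apply Finset.sum_le_sum
      intro z hz
      rw [← dist_eq_norm]
      exact hd x hx z (Finset.mem_erase.1 hz).2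
    rw [Finset.sum_const, Finset.card_erase_of_mem hx, h, Nat.add_sub_cancel, nsmul_eq_mul] at e3
    exact e3
  have e4 : (1 - 1 / ((n : ℝ) + 1)) * δ = ((n : ℝ) + 1)⁻¹ * ((n : ℝ) * δ) := by
    field_simp
    ring
  rw [e4]
  exact mul_le_mul_of_nonneg_left e2 (by positivity)

/-- The support of the subdivision. -/
private theorem Sd_supp {M : ℕ} {δ θ : ℝ} {K : ℕ} (hδ : 0 ≤ δ) (hθ : θ = (1 - 1 / (K : ℝ)) * δ) :
    ∀ (n : ℕ), n ≤ K → ∀ S : Finset (Fin M → ℝ), S.card = n → (∀ x ∈ S, ∀ y ∈ S, dist x y ≤ δ) →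
      Sd_L M (Finsupp.single S (1 : ZMod 2)) ∈ Sp (fun T : Finset (Fin M → ℝ) => T.card = n ∧
        (∀ x ∈ T, x ∈ convexHull ℝ (S : Set (Fin M → ℝ))) ∧ ∀ x ∈ T, ∀ y ∈ T, dist x y ≤ θ) := by
  intro n
  induction n with
  | zero =>
    intro _ S hS _
    rw [Finset.card_eq_zero] at hS
    rw [hS, Sd_empty]
    apply single_mem_Sp
    refine ⟨rfl, ?_, ?_⟩
    · intro x hx
      exact absurd hx (Finset.notMem_empty x)
    · intro x hx
      exact absurd hx (Finset.notMem_empty x)
  | succ n ih =>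
    intro hn S hS hd
    rw [Sd_step S hS, Sd_bd]
    have h1 : ∑ a ∈ S, Sd_L M (Finsupp.single (S.erase a) (1 : ZMod 2)) ∈
        Sp (fun T : Finset (Fin M → ℝ) => T.card = n ∧
          (∀ x ∈ T, x ∈ convexHull ℝ (S : Set (Fin M → ℝ))) ∧ ∀ x ∈ T, ∀ y ∈ T, dist x y ≤ θ) := by
      apply Submodule.sum_mem
      intro a ha
      have h2 := ih (by omega) (S.erase a)
        (by rw [Finset.card_erase_of_mem ha, hS, Nat.add_sub_cancel])
        (fun x hx y hy => hd x (Finset.mem_erase.1 hx).2 y (Finset.mem_erase.1 hy).2)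
      refine Sp_mono ?_ h2
      rintro T ⟨hT1, hT2, hT3⟩
      refine ⟨hT1, fun x hx => ?_, hT3⟩
      exact convexHull_mono (Finset.coe_subset.2 (Finset.erase_subset a S)) (hT2 x hx)
    have hK : (0 : ℝ) < (n : ℝ) + 1 := by positivity
    have hKn : ((n : ℝ) + 1) ≤ K := by exact_mod_cast hn
    have hθ1 : (1 - 1 / ((n : ℝ) + 1)) * δ ≤ θ := by
      rw [hθ]
      apply mul_le_mul_of_nonneg_right _ hδ
      have := one_div_le_one_div_of_le hK hKn
      linarith
    have hball : convexHull ℝ (S : Set (Fin M → ℝ)) ⊆ Metric.closedBall (Sd_bary S) θ := by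
      apply convexHull_min _ (convex_closedBall _ _)
      intro x hx
      rw [Metric.mem_closedBall]
      exact (Sd_bary_dist hS hd x hx).trans hθ1
    have hθ0 : 0 ≤ θ := by
      have h3 := hball (Sd_bary_mem hS)
      rw [Metric.mem_closedBall, dist_self] at h3
      exact h3
    apply map_mem_of_basis (cone (Sd_bary S)) _ h1
    rintro T ⟨hT1, hT2, hT3⟩
    rw [cone_single]
    split_ifs with hb
    · exact Submodule.zero_mem _
    · apply single_mem_Sp
      refine ⟨?_, ?_, ?_⟩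
      · rw [Finset.card_insert_of_notMem hb, hT1]
      · intro x hx
        rcases Finset.mem_insert.1 hx with rfl | hx
        · exact Sd_bary_mem hS
        · exact hT2 x hx
      · intro x hx y hy
        rcases Finset.mem_insert.1 hx with rfl | hx
        · rcases Finset.mem_insert.1 hy with rfl | hy
          · rw [dist_self]
            exact hθ0
          · rw [dist_comm]
            exact Metric.mem_closedBall.1 (hball (hT2 y hy))
        · rcases Finset.mem_insert.1 hy with rfl | hy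
          · exact Metric.mem_closedBall.1 (hball (hT2 x hx))
          · exact hT3 x hx y hy

theorem pSd : SAlg → SSd := by
  intro hA M
  refine ⟨Sd_L M, ?_, ?_, Sd_empty M, ?_⟩
  · intro c
    exact eq_of_basis (P := fun _ : Finset (Fin M → ℝ) => True) (bd ∘ₗ Sd_L M) (Sd_L M ∘ₗ bd)
      (fun S _ => Sd_comm hA S.card S rfl) (mem_Sp_true c)
  · intro c
    exact eq_of_basis (P := fun _ : Finset (Fin M → ℝ) => True) (Sd_L M ∘ₗ push ng) (push ng ∘ₗ Sd_L M)
      (fun S _ => Sd_ng hA S.card S rfl) (mem_Sp_true c)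
  · intro K k δ _ hk hδ c hc
    apply map_mem_of_basis (Sd_L M) _ hc
    rintro S ⟨hS1, hS2, e, he, hSe⟩
    refine Sp_mono ?_ (Sd_supp hδ rfl k hk S hS1 hS2)
    rintro T ⟨hT1, hT2, hT3⟩
    refine ⟨hT1, hT3, e, he, ?_⟩
    have hconv : Convex ℝ {x : Fin M → ℝ | (∀ i, 0 ≤ e i * x i) ∧ ∑ i, e i * x i = 1} := by
      rintro x ⟨hx1, hx2⟩ y ⟨hy1, hy2⟩ a b ha hb hab
      have e1 : ∀ i, e i * (a • x + b • y) i = a * (e i * x i) + b * (e i * y i) := by
        intro i
        rw [Pi.add_apply, Pi.smul_apply, Pi.smul_apply, smul_eq_mul, smul_eq_mul]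
        ring
      refine ⟨fun i => ?_, ?_⟩
      · rw [e1]
        exact add_nonneg (mul_nonneg ha (hx1 i)) (mul_nonneg hb (hy1 i))
      · rw [Finset.sum_congr rfl (fun i _ => e1 i), Finset.sum_add_distrib, ← Finset.mul_sum,
          ← Finset.mul_sum, hx2, hy2, mul_one, mul_one, hab]
    have hsub : convexHull ℝ (S : Set (Fin M → ℝ)) ⊆
        {x : Fin M → ℝ | (∀ i, 0 ≤ e i * x i) ∧ ∑ i, e i * x i = 1} :=
      convexHull_min (fun x hx => hSe x hx) hconv
    intro x hx
    exact hsub (hT2 x hx)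

end Pool.Agent.BU
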