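import Pool.Agent.Lib.BorsukUlam.Spec

set_option autoImplicit false

open scoped Classical

namespace Pool.Agent.BU

namespace SmallAux

theorem pow_succ_apply {M : ℕ} (Sd : Ch (Fin M → ℝ) →ₗ[ZMod 2] Ch (Fin M → ℝ)) (n : ℕ) (c : Ch (Fin M → ℝ)) :
    (Sd ^ (n + 1)) c = Sd ((Sd ^ n) c) := by
  rw [pow_succ', Module.End.mul_apply]

end SmallAux

open SmallAux in
theorem pSmall : SSd → SBase → SSmall := by
  intro hSd hB M δ hδ
  rcases Nat.eq_zero_or_pos M with h0 | hM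
  · subst h0
    exact ⟨fun _ => 0, fun k hk => absurd hk (Nat.not_lt_zero k), fun h => absurd h (Nat.lt_irrefl 0),
      fun k hk => absurd hk (Nat.not_lt_zero _)⟩
  obtain ⟨Sd, s1, s2, s3, s4⟩ := hSd M
  obtain ⟨φ, f1, f2, f3⟩ := hB M
  have hM1 : (1 : ℝ) ≤ M := by exact_mod_cast hM
  have hM0 : (0 : ℝ) < M := by linarith
  have hr0 : 0 ≤ 1 - 1 / (M : ℝ) := by
    have h1 : 1 / (M : ℝ) ≤ 1 := by
      rw [div_le_one hM0]
      exact hM1
    linarith
  have hr1 : 1 - 1 / (M : ℝ) < 1 := by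
    have h1 : 0 < 1 / (M : ℝ) := by positivity
    linarith
  obtain ⟨n, hn⟩ := exists_pow_lt_of_lt_one (show (0 : ℝ) < δ / 2 by linarith) hr1
  have t1 : ∀ n : ℕ, ∀ c, bd ((Sd ^ n) c) = (Sd ^ n) (bd c) := by
    intro n
    induction n with
    | zero => intro c; simp
    | succ n ih =>
      intro c
      rw [pow_succ_apply, pow_succ_apply, s1, ih]
  have t2 : ∀ n : ℕ, ∀ c, (Sd ^ n) (push ng c) = push ng ((Sd ^ n) c) := by
    intro n
    induction n with
    | zero => intro c; simp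
    | succ n ih =>
      intro c
      rw [pow_succ_apply, pow_succ_apply, ih, s2]
  have t3 : ∀ n : ℕ, (Sd ^ n) (Finsupp.single ∅ 1) = Finsupp.single ∅ 1 := by
    intro n
    induction n with
    | zero => simp
    | succ n ih => rw [pow_succ_apply, ih, s3]
  have t4 : ∀ n : ℕ, ∀ k : ℕ, 1 ≤ k → k ≤ M → ∀ c ∈ Sp (Good M 2 k),
      (Sd ^ n) c ∈ Sp (Good M ((1 - 1 / (M : ℝ)) ^ n * 2) k) := by
    intro n
    induction n with
    | zero =>
      intro k _ _ c hc
      rw [pow_zero, pow_zero, one_mul, Module.End.one_apply]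
      exact hc
    | succ n ih =>
      intro k hk1 hk2 c hc
      rw [pow_succ_apply]
      have h1 := s4 M k ((1 - 1 / (M : ℝ)) ^ n * 2) hk1 hk2 (by positivity) _ (ih k hk1 hk2 c hc)
      have h2 : (1 - 1 / (M : ℝ)) ^ (n + 1) * 2 = (1 - 1 / (M : ℝ)) * ((1 - 1 / (M : ℝ)) ^ n * 2) := by
        rw [pow_succ]
        ring
      rw [h2]
      exact h1
  refine ⟨fun k => (Sd ^ n) (φ k), ?_, ?_, ?_⟩
  · intro k hk
    have h1 := t4 n (k + 1) (by omega) (by omega) (φ k) (f1 k hk)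
    refine Sp_mono (fun S hS => ?_) h1
    obtain ⟨g1, g2, g3⟩ := hS
    refine ⟨g1, fun x hx y hy => ?_, g3⟩
    have h2 := g2 x hx y hy
    linarith
  · intro h
    rw [t1, f2 h, t3]
  · intro k hk
    rw [t1, f3 k hk, map_add, t2]

end Pool.Agent.BU
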