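import Pool.Agent.Lib.BorsukUlam.Defs

/-!
# The Borsuk-Ulam theorem: statements

GOAL `SBU`: a continuous odd map from `ℝ^(m+1)` minus the origin to `ℝ^m` has a zero.

Every statement is a proposition `SName`; the module `Name.lean` proves `pName : SName` or, if the docstring says (from `SA`, `SB`), the
implication `SA → SB → SName`. Definitions: `Defs.lean`. To prove an identity of linear maps use `eq_of_basis` with the trivial property
(`mem_Sp_true`) or `Finsupp.lhom_ext'`; basis elements are `Finsupp.single S 1`.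
-/

set_option autoImplicit false

open scoped Classical

namespace Pool.Agent.BU

/-- **Algebra** (150 lines). PROOFS on basis elements `single S 1` (coefficients in `ZMod 2`, `add_self_ch`). (1) `bd (bd S) = ∑ a ∈ S, ∑ b ∈ S.erase a, S \ {a, b}`, every unordered pair occurs twice
(`Finset.sum_involution`, or split the double sum over `S ×ˢ S` off the diagonal with the involution `Prod.swap`). (2) If `f` is injective on `S` (`(S.image f).card = S.card`, `Finset.card_image_iff`) both sides are `∑ a ∈ S, (S.image f).erase (f a)`. If not, the left side is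
`bd 0 = 0`; there are `a ≠ b` in `S` with `f a = f b`; in `∑ x ∈ S, push f (S.erase x)` the terms with `x ≠ a, b` are `0` (`a, b ∈ S.erase x`), and the terms for `a`, `b` are equal: `f` is injective on `S.erase a` iff on `S.erase b`, and the images are equal. (3) `b ∉ S`: `bd (insert b S) = S + ∑ a ∈ S, insert b (S.erase a)`
(`Finset.sum_insert`, `Finset.erase_insert`, `Finset.erase_insert_of_ne`); `b ∈ S`: the left side is `0`, on the right `cone b (S.erase a) = 0` for `a ≠ b` and `= insert b (S.erase b) = S` for `a = b`, total `S + S = 0`. (4) `b ∈ S` iff `g b ∈ S.image g`; images of `insert`; cardinalities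
(injective: `Finset.card_image_of_injective`). (5) `g` is injective, `(S.image g).image g = S`. -/
def SAlg : Prop :=
  (∀ (X : Type) (c : Ch X), bd (bd c) = 0) ∧
  (∀ (X Y : Type) (f : X → Y) (c : Ch X), bd (push f c) = push f (bd c)) ∧
  (∀ (X : Type) (b : X) (c : Ch X), bd (cone b c) = c + cone b (bd c)) ∧
  (∀ (X : Type) (g : X → X), Function.Injective g → ∀ (b : X) (c : Ch X), push g (cone b c) = cone (g b) (push g c)) ∧
  (∀ (X : Type) (g : X → X), (∀ x, g (g x) = x) → ∀ c : Ch X, push g (push g c) = c)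

/-- **Barycentric subdivision** (from `SAlg`; 250 lines). `bary S = (S.card : ℝ)⁻¹ • ∑ x ∈ S, x`. Define `SdN : ℕ → Finset (Fin M → ℝ) → Ch _` by `SdN 0 S = single ∅ 1`, `SdN (n + 1) S = cone (bary S) (∑ a ∈ S, SdN n (S.erase a))`, and `Sd` = the linear extension of `S ↦ SdN S.card S`. So
`Sd S = cone (bary S) (Sd (bd S))` for `S ≠ ∅`. (a) `bd (Sd S) = Sd (bd S)` by induction on `S.card`: for `S ≠ ∅`, `bd (cone b c) = c + cone b (bd c)` with `c = Sd (bd S)`, and `bd c = Sd (bd (bd S)) = 0` by the induction hypothesis for the sets `S.erase a`. (b) `Sd (push ng S) = push ng (Sd S)`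
by induction: `bary (S.image ng) = ng (bary S)`, the fourth and second part of `SAlg`. (c) Let `S` be `Good M δ k`, `k ≥ 1`. CLAIM by induction on `k`: `Sd S` is supported by sets `T` with `T.card = k`, all points of `T` in `convexHull ℝ S`, mutual distances `≤ (1 - 1 / k) δ`. For `k ≥ 1` a set of `Sd S` is `insert (bary S) T'` with `T'` a set of
`Sd (S.erase a)` (`T' = ∅` if `k = 1`) not containing `bary S`; the points of `T'` are in the convex hull of `S`, with mutual distances `≤ (1 - 1/(k-1)) δ`; for `y` in the convex hull `dist (bary S) y ≤ sup over x ∈ S of dist (bary S) x` (the closed ball is convex: `convexHull_min`) and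
`bary S - x = (1/k) ∑ z ∈ S, (z - x)`, one term is zero, so the norm is `≤ ((k - 1)/k) δ`. Since `1 - 1/k ≤ 1 - 1/K` the bound holds. The sign conditions (`0 ≤ e i * x i`, `∑ e i * x i = 1`) define a convex set. -/
def SSd : Prop :=
  ∀ M : ℕ, ∃ Sd : Ch (Fin M → ℝ) →ₗ[ZMod 2] Ch (Fin M → ℝ),
    (∀ c, bd (Sd c) = Sd (bd c)) ∧ (∀ c, Sd (push ng c) = push ng (Sd c)) ∧
    Sd (Finsupp.single ∅ 1) = Finsupp.single ∅ 1 ∧
    ∀ (K k : ℕ) (δ : ℝ), 1 ≤ k → k ≤ K → 0 ≤ δ → ∀ c ∈ Sp (Good M δ k), Sd c ∈ Sp (Good M ((1 - 1 / (K : ℝ)) * δ) k)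

/-- **The hemispheres** (from `SAlg`; 120 lines). With `e j = Pi.single j 1` (any point for `j ≥ M`): `φ 0 = single {e 0} 1`, `φ (k + 1) = cone (e (k + 1)) (φ k + push ng (φ k))`. `bd (φ (k + 1)) = (φ k + push ng (φ k)) + cone (e (k + 1)) (bd (φ k + push ng (φ k)))` and the last boundary vanishes:
for `k = 0` it is `single ∅ + single ∅ = 0`, for `k + 1` it is `(φ k + push ng (φ k)) + push ng (φ k + push ng (φ k)) = 0` (fifth part of `SAlg`, `add_self_ch`). Support: by induction `φ k` is supported by the sets `{s_0 e_0, ..., s_k e_k}` with signs `s_j` (express it for instance as: `S.card = k + 1`, there are signs `s` with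
`S = (Finset.univ.filter (· ≤ k)).image (fun j => s j • e j)`, or: every element of `S` is `± e j` with `j ≤ k` and for every `j` at most one of `e j`, `-e j` is in `S`); such a set is `Good M 2 (k + 1)`: sup norm distances are `≤ 2`, signs `e i` = the sign used at the place `i` (and `1` at the other places). -/
def SBase : Prop :=
  ∀ M : ℕ, ∃ φ : ℕ → Ch (Fin M → ℝ), (∀ k < M, φ k ∈ Sp (Good M 2 (k + 1))) ∧
    (0 < M → bd (φ 0) = Finsupp.single ∅ 1) ∧
    ∀ k, k + 1 < M → bd (φ (k + 1)) = φ k + push ng (φ k)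

/-- **Fine hemispheres** (from `SSd`, `SBase`; 60 lines). PROOF. `M = 0` trivial (all `k < 0` vacuous). Apply `Sd` `n` times to the chains of `SBase`, with `(1 - 1/M)^n * 2 ≤ δ` (`K = M`, `0 ≤ 1 - 1/M < 1`, `exists_pow_lt_of_lt_one`); the relations are preserved; weaken the bound with `Sp_mono`. -/
def SSmall : Prop :=
  ∀ (M : ℕ) (δ : ℝ), 0 < δ → ∃ φ : ℕ → Ch (Fin M → ℝ), (∀ k < M, φ k ∈ Sp (Good M δ (k + 1))) ∧
    (0 < M → bd (φ 0) = Finsupp.single ∅ 1) ∧
    ∀ k, k + 1 < M → bd (φ (k + 1)) = φ k + push ng (φ k)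

/-- **Descent** (from `SAlg`; 150 lines). PROOF. (E) EXACTNESS: if `k ≥ 1`, `c ∈ Sp (Adm m k)` and `c + push opp c = 0` then `c = z + push opp z` with `z ∈ Sp (Adm m k)`: `opp` acts freely on the admissible nonempty sets (`S.image opp = S` would give `opp a ∈ S` for `a ∈ S`), `c` is constant on orbits
(`c (S.image opp) = c S`); choose a linear order on `Finset (Lb m)` (or any rule choosing one element of every pair `S, S.image opp`, for instance: the label with the least first component in `S` has second component `true`) and let `z` be the part of `c` on the chosen sets. (D) CLAIM for `k ≤ m`, by descending induction: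
there are `y ∈ Sp (Adm m (k + 2))`, `z ∈ Sp (Adm m (k + 1))` with `p k = bd y + z + push opp z`. `k = m`: a set of `m + 1` labels contains two labels with the same first component, which are opposite, so `Adm m (m + 1)` is empty and `p m = 0`. Step from `k + 1` to `k`: `p (k+1) = bd y + z + push opp z`, so
`p k + push opp (p k) = bd (p (k+1)) = bd z + push opp (bd z)` (`SAlg` 1, 2), hence `c = p k + bd z` satisfies `c + push opp c = 0` (mod 2), `c ∈ Sp (Adm m (k + 1))` (subsets of admissible sets are admissible), and (E) gives `c = z' + push opp z'`, `p k = bd z + z' + push opp z'`. END: `single ∅ = bd (p 0) = bd (bd y) + bd z + push opp (bd z)`,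
`z ∈ Sp (Adm m 1)`, `bd z = t • single ∅`, `push opp (single ∅) = single ∅`: the right side is `0`. Contradiction. -/
def SDesc : Prop :=
  ∀ (m : ℕ) (p : ℕ → Ch (Lb m)), (∀ k ≤ m, p k ∈ Sp (Adm m (k + 1))) → bd (p 0) = Finsupp.single ∅ 1 →
    (∀ k < m, bd (p (k + 1)) = p k + push opp (p k)) → False

/-- **Labels** (120 lines). PROOF. `m = 0` is impossible (`g x = 0` for all `x`). For `x` let `j x` be the least index with `|g x j| = ‖g x‖` (sup norm; it exists for `m ≥ 1`), `lab x = (j x, decide (0 < g x (j x)))`. If `x ≠ 0` then `g x (j x) ≠ 0`, `g (-x) = - g x`, so the index is the same and the sign changes.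
The set `K = {x | ∑ i, |x i| = 1}` is compact and does not contain `0`, so `‖g x‖ ≥ ε > 0` on `K`, and `g` is uniformly continuous on `K`: `δ > 0` with `dist x y ≤ δ → dist (g x) (g y) < ε` for `x, y ∈ K` (`CompactSpace`, `IsCompact.uniformContinuousOn_of_continuous`). The points of a `Good` set are in `K` (`e i * x i = |x i|`). If `lab x = opp (lab y)` then with
`j = j x = j y` the numbers `g x j`, `g y j` have absolute value `≥ ε` and opposite signs, so `|g x j - g y j| ≥ 2 ε`, a contradiction. -/
def SLab : Prop :=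
  ∀ (m : ℕ) (g : (Fin (m + 1) → ℝ) → (Fin m → ℝ)), ContinuousOn g {0}ᶜ → (∀ x, g (-x) = -g x) →
    (∀ x, x ≠ 0 → g x ≠ 0) → ∃ (δ : ℝ) (lab : (Fin (m + 1) → ℝ) → Lb m), 0 < δ ∧
      (∀ x, x ≠ 0 → lab (ng x) = opp (lab x)) ∧
      ∀ S k, Good (m + 1) δ k S → ∀ x ∈ S, ∀ y ∈ S, lab x ≠ opp (lab y)

/-- **Borsuk-Ulam** (from `SAlg`, `SSmall`, `SDesc`, `SLab`; 100 lines). PROOF. Suppose `g x ≠ 0` for all `x ≠ 0`; `δ`, `lab` from `SLab`, `φ` from `SSmall` (`M = m + 1`), `p k = push lab (φ k)`. `p k ∈ Sp (Adm m (k + 1))`: `map_mem_of_basis`. `bd (p 0) = push lab (single ∅ 1) = single ∅ 1`. `bd (p (k+1)) = push lab (φ k + push ng (φ k))` and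
`push lab (push ng c) = push opp (push lab c)` for `c ∈ Sp (Good (m + 1) δ (k + 1))` (`eq_of_basis`, the points are not `0`: `(S.image ng).image lab = (S.image lab).image opp`, `ng` and `opp` are injective). Contradiction to `SDesc`. -/
def SBU : Prop :=
  ∀ (m : ℕ) (g : (Fin (m + 1) → ℝ) → (Fin m → ℝ)), ContinuousOn g {0}ᶜ → (∀ x, g (-x) = -g x) →
    ∃ x, x ≠ 0 ∧ g x = 0

end Pool.Agent.BU
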